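import Pool.Agent.Helper29_BE01.Rwf

/-!
# BE01, module RHT: radial functions in the Sobolev space of the shell
-/

namespace Pool.Agent.BE01.H29

open Set Filter Topology MeasureTheory
open scoped InnerProductSpace ENNReal ContDiff

noncomputable section

variable {d : ℕ}

/-- bounded pointwise convergence implies convergence in `L^2` -/
theorem tendsto_L2 {E : Type} [NormedAddCommGroup E] [InnerProductSpace ℝ E] {α : Type}
    [MeasurableSpace α] {μ : Measure α} [IsFiniteMeasure μ]
    (F : ℕ → Lp E 2 μ) (f : Lp E 2 μ) (C : ℝ) (hC : ∀ n, ∀ᵐ x ∂μ, ‖F n x‖ ≤ C)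
    (h : ∀ᵐ x ∂μ, Tendsto (fun n => F n x) atTop (𝓝 (f x))) : Tendsto F atTop (𝓝 f) := by
  rw [tendsto_iff_norm_sub_tendsto_zero]
  have hall : ∀ᵐ x ∂μ, ∀ n, ‖F n x‖ ≤ C := ae_all_iff.2 hC
  have hf : ∀ᵐ x ∂μ, ‖f x‖ ≤ C := by
    filter_upwards [hall, h] with x hx hx2
    exact le_of_tendsto hx2.norm (Eventually.of_forall hx)
  have h1 : ∀ n, ‖F n - f‖ ^ 2 = ∫ x, ‖F n x - f x‖ ^ 2 ∂μ := by
    intro n
    rw [← real_inner_self_eq_norm_sq, L2.inner_def]
    apply integral_congr_ae
    filter_upwards [Lp.coeFn_sub (F n) f] with x hx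
    rw [hx, Pi.sub_apply, real_inner_self_eq_norm_sq]
  have h2 : Tendsto (fun n => ‖F n - f‖ ^ 2) atTop (𝓝 0) := by
    simp_rw [h1]
    have h3 : (0 : ℝ) = ∫ x, (0 : ℝ) ∂μ := by simp
    rw [h3]
    refine tendsto_integral_of_dominated_convergence (fun _ => (C + C) ^ 2) ?_
      (integrable_const _) ?_ ?_
    · intro n
      have h4 : AEStronglyMeasurable (fun x => F n x - f x) μ :=
        (Lp.aestronglyMeasurable (F n)).sub (Lp.aestronglyMeasurable f)
      exact h4.norm.pow 2
    · intro n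
      filter_upwards [hall, hf] with x hx hx2
      rw [Real.norm_of_nonneg (by positivity)]
      have h5 : ‖F n x - f x‖ ≤ C + C := (norm_sub_le _ _).trans (add_le_add (hx n) hx2)
      gcongr
    · filter_upwards [h] with x hx
      have h6 := (tendsto_iff_norm_sub_tendsto_zero.1 hx).pow 2
      simpa using h6
  have h7 := h2.sqrt
  simpa [Real.sqrt_sq] using h7

/-- approximation in dimension one -/
theorem oned (r0 r1 : ℝ) (h01 : r0 < r1) (G : ℝ → ℝ) (hG : Continuous G)
    (hint : ∫ s in r0..r1, G s = 0) :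
    ∃ (η η' : ℕ → ℝ → ℝ) (ρ0 ρ1 : ℕ → ℝ) (C : ℝ), (∀ n, r0 < ρ0 n ∧ ρ1 n < r1) ∧
      (∀ n, ContDiff ℝ ∞ (η n)) ∧ (∀ n s, HasDerivAt (η n) (η' n s) s) ∧
      (∀ n s, s ∉ Ioo (ρ0 n) (ρ1 n) → η n s = 0) ∧
      (∀ n, ∀ s ∈ Icc r0 r1, |η n s| ≤ C) ∧ (∀ n, ∀ s ∈ Icc r0 r1, |η' n s| ≤ C) ∧
      (∀ s ∈ Ioo r0 r1, Tendsto (fun n => η n s) atTop (𝓝 (∫ t in r0..s, G t))) ∧
      ∀ s ∈ Ioo r0 r1, Tendsto (fun n => η' n s) atTop (𝓝 (G s)) := by
  set c := (r0 + r1) / 2 with hc
  set R := (r1 - r0) / 2 with hR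
  have hRpos : 0 < R := by rw [hR]; linarith
  let b : ℕ → ContDiffBump c := fun n => ⟨R * ((n + 1) / (n + 3)), R * ((n + 2) / (n + 3)),
    by positivity, by gcongr; norm_num⟩
  have hbo : ∀ n, (b n).rOut < R := by
    intro n
    have : ((n : ℝ) + 2) / (n + 3) < 1 := by
      rw [div_lt_one (by positivity)]; linarith
    calc (b n).rOut = R * ((n + 2) / (n + 3)) := rfl
      _ < R * 1 := by gcongr
      _ = R := mul_one R
  have hb0 : ∀ n, (b 0).rOut ≤ (b n).rOut := by
    intro n
    change R * (((0 : ℕ) + 2) / ((0 : ℕ) + 3)) ≤ R * ((n + 2) / (n + 3))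
    apply mul_le_mul_of_nonneg_left _ hRpos.le
    rw [div_le_div_iff₀ (by positivity) (by positivity)]
    have : (0 : ℝ) ≤ n := Nat.cast_nonneg n
    push_cast
    nlinarith
  choose p hp using fun n : ℕ => exists_polynomial_near_of_continuousOn r0 r1 G hG.continuousOn
    (1 / ((n : ℝ) + 1)) (by positivity)
  let g : ℕ → ℝ → ℝ := fun n s => b n s * (p n).eval s
  let χ : ℝ → ℝ := (b 0).normed volume
  let a : ℕ → ℝ := fun n => ∫ s in r0..r1, g n s
  let η' : ℕ → ℝ → ℝ := fun n s => g n s - a n * χ s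
  let η : ℕ → ℝ → ℝ := fun n s => ∫ t in r0..s, η' n t
  have hgs : ∀ n, ContDiff ℝ ∞ (g n) := by
    intro n
    have hpol : ContDiff ℝ ∞ (fun s : ℝ => (p n).eval s) := by
      have h0 := Polynomial.contDiff_aeval (𝕜 := ℝ) (p n) ∞
      simpa using h0
    exact (b n).contDiff.mul hpol
  have hχs : ContDiff ℝ ∞ χ := (b 0).contDiff_normed
  have hη's : ∀ n, ContDiff ℝ ∞ (η' n) := fun n => (hgs n).sub (contDiff_const.mul hχs)
  have hder : ∀ n s, HasDerivAt (η n) (η' n s) s := by
    intro n s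
    exact intervalIntegral.integral_hasDerivAt_right
      ((hη's n).continuous.intervalIntegrable _ _)
      ((hη's n).continuous.stronglyMeasurableAtFilter _ _) (hη's n).continuous.continuousAt
  have hηs : ∀ n, ContDiff ℝ ∞ (η n) := by
    intro n
    rw [contDiff_infty_iff_deriv]
    refine ⟨fun s => (hder n s).differentiableAt, ?_⟩
    have : deriv (η n) = η' n := funext fun s => (hder n s).deriv
    rw [this]
    exact hη's n
  -- the bound of g
  obtain ⟨M, hM⟩ := isCompact_Icc.exists_bound_of_continuousOn (s := Icc r0 r1) hG.continuousOn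
  obtain ⟨Cχ, hCχ⟩ := ((b 0).hasCompactSupport_normed (μ := volume)).exists_bound_of_continuous
    (b 0).continuous_normed
  have hcr0 : c - R = r0 := by rw [hc, hR]; ring
  have hcr1 : c + R = r1 := by rw [hc, hR]; ring
  have hzero : ∀ n s, s ∉ Ioo (c - (b n).rOut) (c + (b n).rOut) → η' n s = 0 := by
    intro n s hs
    have h1 : (b n).rOut ≤ dist s c := by
      rw [Real.dist_eq]
      by_contra hcon
      push Not at hcon
      apply hs
      have := abs_lt.1 hcon
      constructor <;> linarith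
    have h2 : b n s = 0 := (b n).zero_of_le_dist h1
    have h3 : b 0 s = 0 := (b 0).zero_of_le_dist ((hb0 n).trans h1)
    have h4 : χ s = 0 := by
      change (b 0).normed volume s = 0
      rw [ContDiffBump.normed_def, h3, zero_div]
    change b n s * (p n).eval s - a n * χ s = 0
    rw [h2, h4]; ring
  have hχ1 : ∫ s in r0..r1, χ s = 1 := by
    rw [intervalIntegral.integral_eq_integral_of_support_subset]
    · exact (b 0).integral_normed
    · intro s hs
      have h1 : s ∈ Metric.ball c (b 0).rOut := by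
        have h2 : s ∈ Function.support ((b 0).normed volume) := hs
        rwa [ContDiffBump.support_normed_eq] at h2
      rw [Metric.mem_ball, Real.dist_eq] at h1
      have h2 := abs_lt.1 h1
      have h3 := hbo 0
      constructor <;> linarith
  have hη1 : ∀ n, ∫ t in r0..r1, η' n t = 0 := by
    intro n
    have h1 : ∫ t in r0..r1, η' n t = (∫ t in r0..r1, g n t) - ∫ t in r0..r1, a n * χ t :=
      intervalIntegral.integral_sub ((hgs n).continuous.intervalIntegrable _ _)
        ((contDiff_const.mul hχs : ContDiff ℝ ∞ fun t => a n * χ t).continuous.intervalIntegrable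
          _ _)
    rw [h1, intervalIntegral.integral_const_mul, hχ1]
    change a n - a n * 1 = 0
    ring
  have hηz : ∀ n s, s ∉ Ioo (c - (b n).rOut) (c + (b n).rOut) → η n s = 0 := by
    intro n s hs
    have hob := hbo n
    rcases le_or_gt s (c - (b n).rOut) with h1 | h1
    · have h2 : ∫ t in r0..s, η' n t = ∫ t in r0..s, (0 : ℝ) := by
        apply intervalIntegral.integral_congr
        intro t ht
        apply hzero
        intro h3
        have h4 : t ≤ max r0 s := ht.2
        rcases le_max_iff.1 h4 with h5 | h5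
        · linarith [h3.1]
        · linarith [h3.1]
      change ∫ t in r0..s, η' n t = 0
      rw [h2]; simp
    · have h1' : c + (b n).rOut ≤ s := by
        by_contra hcon
        push Not at hcon
        exact hs ⟨h1, hcon⟩
      have h2 : ∫ t in r1..s, η' n t = ∫ t in r1..s, (0 : ℝ) := by
        apply intervalIntegral.integral_congr
        intro t ht
        apply hzero
        intro h3
        have h4 : min r1 s ≤ t := ht.1
        rcases min_le_iff.1 h4 with h5 | h5
        · linarith [h3.2]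
        · linarith [h3.2]
      have h3 : (∫ t in r0..r1, η' n t) + ∫ t in r1..s, η' n t = ∫ t in r0..s, η' n t :=
        intervalIntegral.integral_add_adjacent_intervals
          ((hη's n).continuous.intervalIntegrable _ _) ((hη's n).continuous.intervalIntegrable _ _)
      change ∫ t in r0..s, η' n t = 0
      rw [← h3, hη1, h2]; simp
  -- bounds
  have hM0 : 0 ≤ M := (norm_nonneg _).trans (hM r0 ⟨le_refl _, h01.le⟩)
  have hCχ0 : 0 ≤ Cχ := (norm_nonneg _).trans (hCχ r0)
  have hgb : ∀ n, ∀ s ∈ Icc r0 r1, |g n s| ≤ M + 1 := by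
    intro n s hs
    have h1 := hp n s hs
    have h2 : (1 : ℝ) / (n + 1) ≤ 1 := by
      rw [div_le_one (by positivity)]
      have : (0 : ℝ) ≤ n := Nat.cast_nonneg n
      linarith
    have h3 : |(p n).eval s| ≤ M + 1 := by
      have h4 : (p n).eval s = ((p n).eval s - G s) + G s := by ring
      rw [h4]
      refine (abs_add_le _ _).trans ?_
      have h5 := hM s hs
      rw [Real.norm_eq_abs] at h5
      linarith
    change |b n s * (p n).eval s| ≤ M + 1
    rw [abs_mul, abs_of_nonneg (b n).nonneg]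
    calc b n s * |(p n).eval s| ≤ 1 * (M + 1) :=
          mul_le_mul (b n).le_one h3 (abs_nonneg _) zero_le_one
      _ = M + 1 := one_mul _
  have hle : r0 ≤ r1 := h01.le
  have hab : ∀ n, |a n| ≤ (M + 1) * (r1 - r0) := by
    intro n
    have h1 : ‖∫ s in r0..r1, g n s‖ ≤ (M + 1) * |r1 - r0| := by
      apply intervalIntegral.norm_integral_le_of_norm_le_const
      intro s hs
      rw [uIoc_of_le hle] at hs
      exact hgb n s ⟨hs.1.le, hs.2⟩
    rwa [abs_of_nonneg (by linarith : (0 : ℝ) ≤ r1 - r0)] at h1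
  set C1 := (M + 1) + (M + 1) * (r1 - r0) * Cχ with hC1
  have hC1nn : 0 ≤ C1 := by
    have : 0 ≤ r1 - r0 := by linarith
    positivity
  have hη'b : ∀ n, ∀ s ∈ Icc r0 r1, |η' n s| ≤ C1 := by
    intro n s hs
    have h1 : |g n s - a n * χ s| ≤ |g n s| + |a n * χ s| := abs_sub _ _
    have h2 : |a n * χ s| ≤ (M + 1) * (r1 - r0) * Cχ := by
      rw [abs_mul]
      exact mul_le_mul (hab n) (hCχ s) (abs_nonneg _) ((abs_nonneg _).trans (hab n))
    exact h1.trans (add_le_add (hgb n s hs) h2)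
  have hηb : ∀ n, ∀ s ∈ Icc r0 r1, |η n s| ≤ C1 * (r1 - r0) := by
    intro n s hs
    have h1 : ‖∫ t in r0..s, η' n t‖ ≤ C1 * |s - r0| := by
      apply intervalIntegral.norm_integral_le_of_norm_le_const
      intro t ht
      rw [uIoc_of_le hs.1] at ht
      exact hη'b n t ⟨ht.1.le, ht.2.trans hs.2⟩
    rw [abs_of_nonneg (by linarith [hs.1] : (0 : ℝ) ≤ s - r0)] at h1
    refine h1.trans ?_
    gcongr
    exact hs.2
  -- convergence
  have hgt : ∀ s ∈ Ioo r0 r1, Tendsto (fun n => g n s) atTop (𝓝 (G s)) := by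
    intro s hs
    have h1 : Tendsto (fun n : ℕ => 1 / ((n : ℝ) + 1)) atTop (𝓝 0) :=
      tendsto_one_div_add_atTop_nhds_zero_nat
    have h2 : Tendsto (fun n => (p n).eval s) atTop (𝓝 (G s)) := by
      rw [tendsto_iff_norm_sub_tendsto_zero]
      exact squeeze_zero (fun n => norm_nonneg _)
        (fun n => (hp n s ⟨hs.1.le, hs.2.le⟩).le) h1
    have h3 : Tendsto (fun n : ℕ => R * (((n : ℝ) + 1) / (n + 3))) atTop (𝓝 (R * 1)) := by
      apply Tendsto.const_mul
      have h4 : Tendsto (fun n : ℕ => 1 - 2 * (1 / ((n + 2 : ℕ) + 1 : ℝ))) atTop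
          (𝓝 (1 - 2 * 0)) := by
        apply Tendsto.sub tendsto_const_nhds
        apply Tendsto.const_mul
        exact h1.comp (tendsto_add_atTop_nat 2)
      rw [mul_zero, sub_zero] at h4
      refine h4.congr ?_
      intro n
      push_cast
      have : ((n : ℝ) + 2 + 1) ≠ 0 := by positivity
      have h5 : ((n : ℝ) + 3) ≠ 0 := by positivity
      field_simp
      ring
    have h6 : |s - c| < R * 1 := by
      rw [mul_one, abs_lt]
      constructor <;> linarith [hs.1, hs.2]
    have h7 : ∀ᶠ n : ℕ in atTop, b n s = 1 := by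
      filter_upwards [h3.eventually (lt_mem_nhds h6)] with n hn
      apply (b n).one_of_mem_closedBall
      rw [Metric.mem_closedBall, Real.dist_eq]
      exact hn.le
    refine h2.congr' ?_
    filter_upwards [h7] with n hn
    change (p n).eval s = b n s * (p n).eval s
    rw [hn, one_mul]
  have hat : Tendsto a atTop (𝓝 0) := by
    rw [← hint]
    apply intervalIntegral.tendsto_integral_filter_of_dominated_convergence (fun _ => M + 1)
    · exact Eventually.of_forall fun n => (hgs n).continuous.aestronglyMeasurable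
    · refine Eventually.of_forall fun n => Eventually.of_forall fun s hs => ?_
      rw [uIoc_of_le hle] at hs
      exact hgb n s ⟨hs.1.le, hs.2⟩
    · exact intervalIntegrable_const
    · have h1 : ∀ᵐ s : ℝ, s ≠ r1 := by
        rw [ae_iff]
        simp
      filter_upwards [h1] with s hs hs2
      rw [uIoc_of_le hle] at hs2
      exact hgt s ⟨hs2.1, lt_of_le_of_ne hs2.2 hs⟩
  have hη't : ∀ s ∈ Ioo r0 r1, Tendsto (fun n => η' n s) atTop (𝓝 (G s)) := by
    intro s hs
    have h1 := (hgt s hs).sub (hat.mul_const (χ s))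
    rwa [zero_mul, sub_zero] at h1
  refine ⟨η, η', fun n => c - (b n).rOut, fun n => c + (b n).rOut, max C1 (C1 * (r1 - r0)),
    ?_, hηs, hder, hηz, fun n s hs => (hηb n s hs).trans (le_max_right _ _),
    fun n s hs => (hη'b n s hs).trans (le_max_left _ _), ?_, hη't⟩
  · intro n
    have := hbo n
    constructor <;> linarith
  · intro s hs
    apply intervalIntegral.tendsto_integral_filter_of_dominated_convergence (fun _ => C1)
    · exact Eventually.of_forall fun n => (hη's n).continuous.aestronglyMeasurable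
    · refine Eventually.of_forall fun n => Eventually.of_forall fun t ht => ?_
      rw [uIoc_of_le hs.1.le] at ht
      exact hη'b n t ⟨ht.1.le, ht.2.trans hs.2.le⟩
    · exact intervalIntegrable_const
    · refine Eventually.of_forall fun t ht => ?_
      rw [uIoc_of_le hs.1.le] at ht
      exact hη't t ⟨ht.1, ht.2.trans_lt hs.2⟩

/-! ### Radial test functions -/

theorem hasFDerivAt_nrm {x : En d} (hx : x ≠ 0) :
    HasFDerivAt (fun y : En d => ‖y‖) (innerSL ℝ (‖x‖⁻¹ • x)) x := by
  have hn : ‖x‖ ≠ 0 := norm_ne_zero_iff.2 hx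
  have h1 := (hasStrictFDerivAt_norm_sq x).hasFDerivAt
  have h2 := h1.sqrt (by positivity)
  have h3 : (fun y : En d => √(‖y‖ ^ 2)) = fun y => ‖y‖ := by
    funext y
    exact Real.sqrt_sq (norm_nonneg y)
  rw [h3] at h2
  have h4 : (1 / (2 * √(‖x‖ ^ 2))) • (2 • innerSL ℝ x) = innerSL ℝ (‖x‖⁻¹ • x) := by
    rw [Real.sqrt_sq (norm_nonneg x)]
    ext v
    simp only [smul_apply, innerSL_apply_apply, map_smul, smul_eq_mul,
      nsmul_eq_mul, Nat.cast_ofNat]
    field_simp
  rwa [h4] at h2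

theorem radial_grad {η η' : ℝ → ℝ} (h : ∀ s, HasDerivAt η (η' s) s) {x : En d} (hx : x ≠ 0) :
    gradient (fun y : En d => η ‖y‖) x = η' ‖x‖ • (‖x‖⁻¹ • x) := by
  apply HasGradientAt.gradient
  rw [hasGradientAt_iff_hasFDerivAt]
  have h1 := (h ‖x‖).comp_hasFDerivAt x (hasFDerivAt_nrm hx)
  have h2 : InnerProductSpace.toDual ℝ (En d) (η' ‖x‖ • (‖x‖⁻¹ • x)) =
      η' ‖x‖ • innerSL ℝ (‖x‖⁻¹ • x) := by
    ext v
    simp
  rw [h2]
  exact h1

theorem radial_tst {r0 r1 : ℝ} (h0 : 0 < r0) {η : ℝ → ℝ}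
    (hs : ContDiff ℝ ∞ η) {ρ0 ρ1 : ℝ} (hρ0 : r0 < ρ0) (hρ1 : ρ1 < r1)
    (hz : ∀ s, s ∉ Ioo ρ0 ρ1 → η s = 0) : Tst (shell d r0 r1) (fun y : En d => η ‖y‖) := by
  have hsup : Function.support (fun y : En d => η ‖y‖) ⊆ {y : En d | ρ0 ≤ ‖y‖ ∧ ‖y‖ ≤ ρ1} := by
    intro y hy
    by_contra hcon
    apply hy
    apply hz
    intro h1
    exact hcon ⟨h1.1.le, h1.2.le⟩
  have hcl : IsClosed {y : En d | ρ0 ≤ ‖y‖ ∧ ‖y‖ ≤ ρ1} :=
    (isClosed_le continuous_const continuous_norm).inter
      (isClosed_le continuous_norm continuous_const)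
  have hcomp : IsCompact {y : En d | ρ0 ≤ ‖y‖ ∧ ‖y‖ ≤ ρ1} := by
    apply (isCompact_closedBall (0 : En d) ρ1).of_isClosed_subset hcl
    intro y hy
    rw [mem_closedBall_zero_iff]
    exact hy.2
  have hts : tsupport (fun y : En d => η ‖y‖) ⊆ {y : En d | ρ0 ≤ ‖y‖ ∧ ‖y‖ ≤ ρ1} :=
    closure_minimal hsup hcl
  refine ⟨?_, hcomp.of_isClosed_subset (isClosed_tsupport _) hts, ?_⟩
  · rw [contDiff_iff_contDiffAt]
    intro x
    by_cases hx : x = 0
    · subst hx
      have h1 : (fun y : En d => η ‖y‖) =ᶠ[𝓝 0] fun _ => 0 := by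
        have h2 : ∀ᶠ y : En d in 𝓝 0, ‖y‖ < r0 := by
          have := Metric.ball_mem_nhds (0 : En d) h0
          filter_upwards [this] with y hy
          rwa [mem_ball_zero_iff] at hy
        filter_upwards [h2] with y hy
        apply hz
        intro h3
        linarith [h3.1]
      exact contDiffAt_const.congr_of_eventuallyEq h1
    · exact hs.contDiffAt.comp x (contDiffAt_norm ℝ hx)
  · intro y hy
    have := hts hy
    exact ⟨hρ0.trans_le this.1, this.2.trans_lt hρ1⟩

/-- RHT -/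
theorem rht (_hPol : PolStmt) : RhtStmt := by
  intro d r0 r1 h g hd h0 h01 hint u G hu hG
  have hfin := shell_finite d r0 r1
  have hms : MeasurableSet (shell d r0 r1) := (isOpen_shell d r0 r1).measurableSet
  obtain ⟨η, η', ρ0, ρ1, C, hρ, hηs, hder, hηz, hηb, hη'b, hηt, hη't⟩ :=
    oned r0 r1 h01 (fun s => g (projIcc r0 r1 h s)) (g.continuous.comp continuous_projIcc) hint
  have htst : ∀ n, Tst (shell d r0 r1) (fun y : En d => η n ‖y‖) := fun n =>
    radial_tst h0 (hηs n) (hρ n).1 (hρ n).2 (hηz n)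
  have hae : ∀ᵐ x ∂(mu (shell d r0 r1)), x ∈ shell d r0 r1 := ae_restrict_mem hms
  have hne : ∀ x ∈ shell d r0 r1, x ≠ 0 := by
    intro x hx hx0
    rw [hx0] at hx
    have : r0 < ‖(0 : En d)‖ := hx.1
    rw [norm_zero] at this
    linarith
  have hmU : ∀ n, MemLp (fun y : En d => η n ‖y‖) 2 (mu (shell d r0 r1)) := by
    intro n
    obtain ⟨C', hC'⟩ := Tst.bdd (htst n)
    exact MemLp.of_bound (htst n).1.continuous.aestronglyMeasurable C'
      (Eventually.of_forall hC')
  have hmG : ∀ n, MemLp (gradient (fun y : En d => η n ‖y‖)) 2 (mu (shell d r0 r1)) := by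
    intro n
    obtain ⟨C', hC'⟩ := Tst.grad_bdd (htst n)
    exact MemLp.of_bound (Tst.grad_cont (htst n)).aestronglyMeasurable C'
      (Eventually.of_forall hC')
  have hunit : ∀ x : En d, ‖‖x‖⁻¹ • x‖ ≤ 1 := by
    intro x
    rw [norm_smul, norm_inv, norm_norm]
    by_cases hx : ‖x‖ = 0
    · rw [hx]; simp
    · rw [inv_mul_cancel₀ hx]
  have hU : Tendsto (fun n => (hmU n).toLp _) atTop (𝓝 u) := by
    apply tendsto_L2 _ _ C
    · intro n
      filter_upwards [(hmU n).coeFn_toLp, hae] with x hx hx2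
      rw [hx]
      exact hηb n _ ⟨hx2.1.le, hx2.2.le⟩
    · have hall : ∀ᵐ x ∂(mu (shell d r0 r1)), ∀ n, (hmU n).toLp _ x = η n ‖x‖ :=
        ae_all_iff.2 fun n => (hmU n).coeFn_toLp
      filter_upwards [hall, hae, hu] with x hx hx2 hx3
      rw [hx3]
      simp_rw [hx]
      exact hηt _ hx2
  have hGt : Tendsto (fun n => (hmG n).toLp _) atTop (𝓝 G) := by
    apply tendsto_L2 _ _ C
    · intro n
      filter_upwards [(hmG n).coeFn_toLp, hae] with x hx hx2
      rw [hx, radial_grad (hder n) (hne x hx2), norm_smul]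
      calc ‖η' n ‖x‖‖ * ‖‖x‖⁻¹ • x‖ ≤ C * 1 :=
            mul_le_mul (hη'b n _ ⟨hx2.1.le, hx2.2.le⟩) (hunit x) (norm_nonneg _)
              ((abs_nonneg _).trans (hη'b n _ ⟨hx2.1.le, hx2.2.le⟩))
        _ = C := mul_one C
    · have hall : ∀ᵐ x ∂(mu (shell d r0 r1)), ∀ n, (hmG n).toLp _ x =
          gradient (fun y : En d => η n ‖y‖) x := ae_all_iff.2 fun n => (hmG n).coeFn_toLp
      filter_upwards [hall, hae, hG] with x hx hx2 hx3
      rw [hx3]
      have h1 : (fun n => (hmG n).toLp _ x) = fun n => η' n ‖x‖ • (‖x‖⁻¹ • x) := by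
        funext n
        rw [hx n, radial_grad (hder n) (hne x hx2)]
      rw [h1]
      exact (hη't _ hx2).smul_const _
  have hP := hU.prodMk_nhds hGt
  apply mem_closure_of_tendsto hP
  refine Eventually.of_forall fun n => ⟨fun y : En d => η n ‖y‖, htst n, ?_, ?_⟩
  · exact (hmU n).coeFn_toLp
  · exact (hmG n).coeFn_toLp

end

end Pool.Agent.BE01.H29
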