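import Pool.Agent.BE01.StmtsS

/-!
# BE01, module RWF: the weak form of the equation in the shell
-/

namespace Pool.Agent.BE01.H29

open Set Filter Topology MeasureTheory
open scoped InnerProductSpace ENNReal ContDiff

noncomputable section

variable {d : ℕ}

/-! ### Test functions -/

theorem Tst.bdd {Ω : Set (En d)} {ψ : En d → ℝ} (h : Tst Ω ψ) : ∃ C, ∀ x, ‖ψ x‖ ≤ C :=
  h.2.1.exists_bound_of_continuous h.1.continuous

theorem Tst.grad_cont {Ω : Set (En d)} {ψ : En d → ℝ} (h : Tst Ω ψ) :
    Continuous (gradient ψ) := by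
  have h1 : Continuous (fderiv ℝ ψ) := h.1.continuous_fderiv (by simp)
  exact (InnerProductSpace.toDual ℝ (En d)).symm.continuous.comp h1

theorem Tst.grad_bdd {Ω : Set (En d)} {ψ : En d → ℝ} (h : Tst Ω ψ) :
    ∃ C, ∀ x, ‖gradient ψ x‖ ≤ C := by
  have h1 : HasCompactSupport (fderiv ℝ ψ) := h.2.1.fderiv ℝ
  obtain ⟨C, hC⟩ := h1.exists_bound_of_continuous (h.1.continuous_fderiv (by simp))
  refine ⟨C, fun x => ?_⟩
  have : ‖gradient ψ x‖ = ‖fderiv ℝ ψ x‖ := by
    unfold gradient
    exact LinearIsometryEquiv.norm_map _ _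
  rw [this]
  exact hC x

theorem inner_gradient (ψ : En d → ℝ) (x v : En d) : ⟪gradient ψ x, v⟫_ℝ = fderiv ℝ ψ x v := by
  unfold gradient
  exact InnerProductSpace.toDual_symm_apply

/-- the derivative along a ray -/
theorem ray_deriv {Ω : Set (En d)} {ψ : En d → ℝ} (h : Tst Ω ψ) (θ : En d) (s : ℝ) :
    HasDerivAt (fun s => ψ (s • θ)) ⟪gradient ψ (s • θ), θ⟫_ℝ s := by
  rw [inner_gradient]
  have h1 : HasFDerivAt ψ (fderiv ℝ ψ (s • θ)) (s • θ) :=
    (h.1.differentiable (by simp)).differentiableAt.hasFDerivAt
  have h2 : HasDerivAt (fun s : ℝ => s • θ) ((1 : ℝ) • θ) s := (hasDerivAt_id s).smul_const θ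
  rw [one_smul] at h2
  exact h1.comp_hasDerivAt s h2

/-! ### Polar coordinates -/

/-- if all the radial integrals vanish then the integral vanishes -/
theorem polar_zero (hd : 1 ≤ d) (F : En d → ℝ) (hF : Integrable F volume)
    (h : ∀ θ : Metric.sphere (0 : En d) 1, ∫ r in Ioi (0 : ℝ), r ^ (d - 1) * F (r • (θ : En d)) = 0) :
    ∫ x, F x = 0 := by
  have hfr : Module.finrank ℝ (En d) = d := by simp
  have hnt : Nontrivial (En d) := by
    have : 0 < Module.finrank ℝ (En d) := by omega
    exact Module.nontrivial_of_finrank_pos this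
  have hmp := (volume : Measure (En d)).measurePreserving_homeomorphUnitSphereProd
  have hemb := (homeomorphUnitSphereProd (En d)).measurableEmbedding
  let g : (Metric.sphere (0 : En d) 1) × (Ioi (0 : ℝ)) → ℝ := fun y => F ((y.2 : ℝ) • (y.1 : En d))
  have hg : ∀ x : ({0}ᶜ : Set (En d)), g (homeomorphUnitSphereProd (En d) x) = F x := by
    intro x
    have h1 : (homeomorphUnitSphereProd (En d)).symm (homeomorphUnitSphereProd (En d) x) = x :=
      Homeomorph.symm_apply_apply _ _
    have h2 : (((homeomorphUnitSphereProd (En d)).symm (homeomorphUnitSphereProd (En d) x) :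
        ({0}ᶜ : Set (En d))) : En d) = x := by rw [h1]
    rw [homeomorphUnitSphereProd_symm_apply_coe] at h2
    change F _ = F x
    rw [h2]
  have hI : Integrable g ((volume : Measure (En d)).toSphere.prod
      (Measure.volumeIoiPow (Module.finrank ℝ (En d) - 1))) := by
    rw [← hmp.integrable_comp_emb hemb]
    have h1 : (g ∘ homeomorphUnitSphereProd (En d)) = fun x : ({0}ᶜ : Set (En d)) => F x := by
      funext x; exact hg x
    rw [h1]
    have h2 := (integrableOn_iff_comap_subtypeVal (μ := (volume : Measure (En d)))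
      (measurableSet_singleton (0 : En d)).compl (f := F)).1 hF.integrableOn
    exact h2
  calc ∫ x, F x = ∫ x : ({(0)}ᶜ : Set (En d)), F x ∂(Measure.comap Subtype.val volume) := by
        rw [integral_subtype_comap (measurableSet_singleton _).compl F, restrict_compl_singleton]
    _ = ∫ y, g y ∂((volume : Measure (En d)).toSphere.prod
      (Measure.volumeIoiPow (Module.finrank ℝ (En d) - 1))) := by
        rw [← hmp.integral_comp hemb g]
        exact integral_congr_ae (Eventually.of_forall fun x => (hg x).symm)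
    _ = ∫ θ, ∫ r, g (θ, r) ∂(Measure.volumeIoiPow (Module.finrank ℝ (En d) - 1))
          ∂((volume : Measure (En d)).toSphere) := integral_prod _ hI
    _ = ∫ _θ, (0 : ℝ) ∂((volume : Measure (En d)).toSphere) := by
        refine integral_congr_ae (Eventually.of_forall fun θ => ?_)
        simp only
        have h3 : ∫ r, g (θ, r) ∂(Measure.volumeIoiPow (Module.finrank ℝ (En d) - 1)) =
            ∫ r in Ioi (0 : ℝ), r ^ (d - 1) * F (r • (θ : En d)) := by
          simp only [Measure.volumeIoiPow, ENNReal.ofReal]
          rw [integral_withDensity_eq_integral_smul,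
            integral_subtype_comap measurableSet_Ioi fun a : ℝ =>
              Real.toNNReal (a ^ (Module.finrank ℝ (En d) - 1)) • F (a • (θ : En d)),
            setIntegral_congr_fun measurableSet_Ioi fun x hx => ?_]
          · rw [NNReal.smul_def, Real.coe_toNNReal _ (pow_nonneg hx.out.le _), hfr]
            rfl
          · exact (measurable_subtype_coe.pow_const _).real_toNNReal
        rw [h3]
        exact h θ
    _ = 0 := by simp

theorem isOpen_shell (d : ℕ) (r0 r1 : ℝ) : IsOpen (shell d r0 r1) :=
  (isOpen_lt continuous_const continuous_norm).inter (isOpen_lt continuous_norm continuous_const)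

theorem shell_finite (d : ℕ) (r0 r1 : ℝ) : IsFiniteMeasure (mu (shell d r0 r1)) := by
  refine ⟨?_⟩
  rw [mu, Measure.restrict_apply_univ]
  refine (measure_mono ?_).trans_lt (measure_ball_lt_top (x := (0 : En d)) (r := r1))
  intro x hx
  rw [Metric.mem_ball, dist_zero_right]
  exact hx.2

theorem pr_cont {r0 r1 : ℝ} (h : r0 ≤ r1) : Continuous (pr (d := d) h) :=
  continuous_projIcc.comp continuous_norm

/-- RWF -/
theorem rwf (hPol : PolStmt) : RwfStmt := by
  intro d r0 r1 h D SX hd h0 h01 hO k ψ hψ
  obtain ⟨hsg, hfin, -, -, hpol⟩ := hPol d r0 r1 h hd h0 h01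
  have hfin2 := shell_finite d r0 r1
  obtain ⟨Cψ, hCψ⟩ := Tst.bdd hψ
  obtain ⟨Cg, hCg⟩ := Tst.grad_bdd hψ
  have hpr := pr_cont (d := d) h
  have hkint : Integrable (fun s => k s) (nu d h) := (Lp.memLp k).integrable (by norm_num)
  have hk2 : Integrable (fun x => k (pr h x)) (mu (shell d r0 r1)) := by
    have := (integrable_map_measure (μ := mu (shell d r0 r1)) (f := pr h)
      (Lp.aestronglyMeasurable k) hpr.measurable.aemeasurable).1 hkint
    exact this
  have hA : Integrable (fun x => ⟪D k (pr h x) • (‖x‖⁻¹ • x), gradient ψ x⟫_ℝ)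
      (mu (shell d r0 r1)) := by
    refine Integrable.mono' (g := fun _ => ‖D k‖ * Cg) (integrable_const _) ?_ ?_
    · refine Measurable.aestronglyMeasurable ?_
      refine Measurable.inner ?_ (Tst.grad_cont hψ).measurable
      exact (((D k).continuous.comp hpr).measurable).smul
        ((measurable_norm.inv).smul measurable_id)
    · refine Eventually.of_forall fun x => ?_
      refine (norm_inner_le_norm _ _).trans ?_
      have h1 : ‖D k (pr h x) • (‖x‖⁻¹ • x)‖ ≤ ‖D k‖ := by
        rw [norm_smul, norm_smul, norm_inv, norm_norm]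
        have h2 : ‖x‖⁻¹ * ‖x‖ ≤ 1 := by
          by_cases hx : ‖x‖ = 0
          · rw [hx]; simp
          · rw [inv_mul_cancel₀ hx]
        calc ‖D k (pr h x)‖ * (‖x‖⁻¹ * ‖x‖) ≤ ‖D k‖ * 1 :=
              mul_le_mul ((D k).norm_coe_le_norm _) h2 (by positivity) (norm_nonneg _)
          _ = ‖D k‖ := mul_one _
      exact mul_le_mul h1 (hCg x) (norm_nonneg _) (norm_nonneg _)
  have hB : Integrable (fun x => k (pr h x) * ψ x) (mu (shell d r0 r1)) := by
    refine Integrable.mul_bdd (c := Cψ) hk2 ?_ (Eventually.of_forall hCψ)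
    exact hψ.1.continuous.aestronglyMeasurable
  rw [← sub_eq_zero, ← integral_sub hA hB]
  have hms : MeasurableSet (shell d r0 r1) := (isOpen_shell d r0 r1).measurableSet
  set f : En d → ℝ := fun x => ⟪D k (pr h x) • (‖x‖⁻¹ • x), gradient ψ x⟫_ℝ -
    k (pr h x) * ψ x with hf
  have e1 : ∫ x, f x ∂(mu (shell d r0 r1)) = ∫ x, (shell d r0 r1).indicator f x := by
    rw [mu, integral_indicator hms]
  rw [e1]
  apply polar_zero hd
  · rw [integrable_indicator_iff hms]
    exact hA.sub hB
  · intro θ
    have hθ : ‖(θ : En d)‖ = 1 := by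
      have := θ.2
      rwa [mem_sphere_zero_iff_norm] at this
    -- the one dimensional functions
    set η : ℝ → ℝ := fun s => ψ (s • (θ : En d)) with hη
    set η' : ℝ → ℝ := fun s => ⟪gradient ψ (s • (θ : En d)), (θ : En d)⟫_ℝ with hη'
    have hcη' : Continuous η' :=
      ((Tst.grad_cont hψ).comp (continuous_id.smul continuous_const)).inner continuous_const
    have hcη : Continuous η := hψ.1.continuous.comp (continuous_id.smul continuous_const)
    have hzero : ∀ s : ℝ, 0 ≤ s → ¬ (r0 < s ∧ s < r1) → η s = 0 := by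
      intro s hs hs2
      refine image_eq_zero_of_notMem_tsupport (f := ψ) (x := s • (θ : En d)) ?_
      intro hmem
      have := hψ.2.2 hmem
      apply hs2
      have h3 : ‖s • (θ : En d)‖ = s := by
        rw [norm_smul, hθ, mul_one, Real.norm_of_nonneg hs]
      have h4 := this
      rw [shell, mem_ofPred_eq, h3] at h4
      exact h4
    have hweak := hO.weak k η η' (fun s => ray_deriv hψ θ s) hcη'
      (hzero r0 h0.le (by intro hc; exact lt_irrefl _ hc.1))
      (hzero r1 (h0.trans h01).le (by intro hc; exact lt_irrefl _ hc.2))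
    -- the function on the interval
    have hsm : StronglyMeasurable (fun s : Ic r0 r1 => D k s * η' s - k s * η s) := by
      refine StronglyMeasurable.sub ?_ ?_
      · exact ((D k).continuous.mul (hcη'.comp continuous_subtype_val)).stronglyMeasurable
      · exact (Lp.stronglyMeasurable k).mul
          (hcη.comp continuous_subtype_val).stronglyMeasurable
    have hsm1 : StronglyMeasurable (fun s : Ic r0 r1 => D k s * η' s) :=
      ((D k).continuous.mul (hcη'.comp continuous_subtype_val)).stronglyMeasurable
    have hi1 : Integrable (fun s : Ic r0 r1 => D k s * η' s) (nu d h) := by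
      have hc : Continuous (fun s : Ic r0 r1 => D k s * η' s) :=
        (D k).continuous.mul (hcη'.comp continuous_subtype_val)
      exact hc.integrable_of_hasCompactSupport (HasCompactSupport.of_compactSpace _)
    have hi2 : Integrable (fun s : Ic r0 r1 => k s * η s) (nu d h) := by
      refine Integrable.mul_bdd (c := Cψ) hkint ?_ (Eventually.of_forall fun s => hCψ _)
      exact (hcη.comp continuous_subtype_val).aestronglyMeasurable
    have hp1 := hpol _ hsm (Or.inr (hi1.sub hi2))
    have hp2 := hpol _ hsm1 (Or.inr hi1)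
    rw [integral_sub hi1 hi2, hp2, ← hweak] at hp1
    have e2 : sg d * ∫ r in r0..r1, r ^ (d - 1) *
        (D k (projIcc r0 r1 h r) * η' (projIcc r0 r1 h r)) = ∫ s in r0..r1, flx k s * η' s := by
      rw [← intervalIntegral.integral_const_mul]
      apply intervalIntegral.integral_congr
      intro r hr
      rw [uIcc_of_le h] at hr
      simp only
      rw [projIcc_of_mem h hr, hO.D_eq, qq]
      have hr0 : 0 < r := h0.trans_le hr.1
      have : sg d * r ^ (d - 1) ≠ 0 := by positivity
      field_simp
    rw [e2, sub_self] at hp1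
    have hz : ∫ r in r0..r1, r ^ (d - 1) * (D k (projIcc r0 r1 h r) * η' (projIcc r0 r1 h r) -
        k (projIcc r0 r1 h r) * η (projIcc r0 r1 h r)) = 0 := by
      rcases mul_eq_zero.1 hp1.symm with h5 | h5
      · exact absurd h5 hsg.ne'
      · exact h5
    refine Eq.trans ?_ hz
    rw [intervalIntegral.integral_of_le h, integral_Ioc_eq_integral_Ioo]
    have e3 : ∀ r ∈ Ioi (0 : ℝ), r ^ (d - 1) * (shell d r0 r1).indicator f (r • (θ : En d)) =
        (Ioo r0 r1).indicator (fun r => r ^ (d - 1) * (D k (projIcc r0 r1 h r) *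
          η' (projIcc r0 r1 h r) - k (projIcc r0 r1 h r) * η (projIcc r0 r1 h r))) r := by
      intro r hr
      have hr' : (0 : ℝ) < r := hr
      have hnr : ‖r • (θ : En d)‖ = r := by
        rw [norm_smul, hθ, mul_one, Real.norm_of_nonneg hr'.le]
      by_cases hm : r ∈ Ioo r0 r1
      · have hm' : r • (θ : En d) ∈ shell d r0 r1 := by
          rw [shell, mem_ofPred_eq, hnr]; exact hm
        rw [indicator_of_mem hm, indicator_of_mem hm', hf]
        simp only
        have hpe : pr h (r • (θ : En d)) = projIcc r0 r1 h r := by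
          unfold pr
          rw [hnr]
        have hpv : ((projIcc r0 r1 h r : Ic r0 r1) : ℝ) = r := by
          rw [projIcc_of_mem h ⟨hm.1.le, hm.2.le⟩]
        rw [hpe, hnr, hpv, smul_smul, smul_smul, mul_assoc, inv_mul_cancel₀ hr'.ne', mul_one,
          real_inner_smul_left, real_inner_comm]
      · have hm' : r • (θ : En d) ∉ shell d r0 r1 := by
          rw [shell, mem_ofPred_eq, hnr]; exact hm
        rw [indicator_of_notMem hm, indicator_of_notMem hm', mul_zero]
    rw [setIntegral_congr_fun measurableSet_Ioi e3, setIntegral_indicator measurableSet_Ioo]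
    congr 2
    ext r
    constructor
    · exact fun hr => hr.2
    · exact fun hr => ⟨h0.trans hr.1, hr⟩

end

end Pool.Agent.BE01.H29
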